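import Pool.Agent.L0h99.MN.Stm

set_option autoImplicit false

/-!
# Module TV: the ball of radius two around a heavy vertex
-/

namespace Pool.Agent.L0h57.MN

open Finset
open Pool.Agent.L0h99.MN

theorem TV : St_TV := by
  classical
  intro V _ _ G W H hG hI v hv
  obtain ⟨S, hS⟩ : ∃ S : Finset V, ∀ y, y ∈ S ↔ ∃ w, G.Adj v w ∧ Good G W H v w y :=
    ⟨univ.filter (fun y => ∃ w, G.Adj v w ∧ Good G W H v w y), fun y => by simp⟩
  obtain ⟨T, hT⟩ : ∃ T : Finset V, T = insert v (N G v ∪ S) := ⟨_, rfl⟩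
  have hTm : ∀ y, y ∈ T ↔ y = v ∨ G.Adj v y ∨ ∃ w, G.Adj v w ∧ Good G W H v w y := by
    intro y
    rw [hT, mem_insert, mem_union, mem_N, hS]
  have hvW : v ∈ W := hI.sub hv
  have hTW : T ⊆ W := by
    intro y hy
    rcases (hTm y).1 hy with rfl | h | ⟨w, hw, hg⟩
    · exact hvW
    · exact hI.hN v hv y h
    · exact hg.1
  have hvT : v ∈ T := (hTm v).2 (Or.inl rfl)
  by_cases h6 : 6 ≤ Mu G T
  · left
    refine ⟨T, ∅, hTW, empty_subset _, disjoint_empty_right _, ?_, ?_, ?_, ?_, ?_⟩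
    · intro x hx
      exact absurd hx (notMem_empty x)
    · refine ⟨v, hvT, fun x hx => ?_⟩
      rcases (hTm x).1 hx with h | h | ⟨w, hw, hg⟩
      · exact Or.inl h
      · exact Or.inr (Or.inl h)
      · exact Or.inr (Or.inr ⟨w, (hTm w).2 (Or.inr (Or.inl hw)), hw, hg.2.1⟩)
    · have e1 : ee G (∅ : Finset V) ∅ = 0 := by simp [ee]
      have e2 : Mu G (∅ : Finset V) = 0 := by simp [Mu]
      rw [e1, e2]
      linarith
    · intro h hh hhT y hy hadj
      rcases hy with hy | hy
      · rcases (hTm y).1 hy with rfl | h1 | ⟨w, hw, hg⟩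
        · exact hI.ind h hh y hv hadj
        · apply hhT
          refine (hTm h).2 (Or.inr (Or.inr ⟨y, h1, hI.sub hh, hadj.symm, ?_, Or.inl hh⟩))
          rintro rfl
          exact hhT hvT
        · rcases hg.2.2.2 with h2 | h2
          · exact hI.ind h hh y h2 hadj
          · exact h2 h hh hadj
      · exact absurd hy (notMem_empty y)
    · intro x hx
      exact absurd hx (notMem_empty x)
  · right
    push Not at h6
    have hvN : v ∉ N G v ∪ S := by
      rw [mem_union, mem_N, hS]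
      rintro (h | ⟨w, hw, hg⟩)
      · exact G.loopless.irrefl v h
      · exact hg.2.2.1 rfl
    have hdis : Disjoint (N G v) S := by
      rw [disjoint_left]
      intro y hy hy2
      rw [mem_N] at hy
      obtain ⟨w, hw, hg⟩ := (hS y).1 hy2
      exact hG.t v w y hw hg.2.1 hy
    have hmu : ∀ x ∈ N G v ∪ S, (1:ℤ) ≤ mu G x := by
      intro x hx
      have hxT : x ∈ T := by
        rw [hT]
        exact mem_insert_of_mem hx
      have h3 := hI.deg x (hTW hxT)
      unfold mu
      have h4 : (3:ℤ) ≤ ((N G x).card : ℤ) := by exact_mod_cast h3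
      linarith
    have hMu : Mu G T = mu G v + ∑ x ∈ N G v ∪ S, mu G x := by
      unfold Mu
      rw [hT, sum_insert hvN]
    have hsum : (((N G v).card : ℤ) + (S.card : ℤ)) ≤ ∑ x ∈ N G v ∪ S, mu G x := by
      have h1 : ∑ x ∈ N G v ∪ S, (1:ℤ) ≤ ∑ x ∈ N G v ∪ S, mu G x := sum_le_sum hmu
      rw [sum_const, card_union_of_disjoint hdis, nsmul_eq_mul, mul_one] at h1
      push_cast at h1
      exact h1
    have hd3 : (3:ℤ) ≤ ((N G v).card : ℤ) := by exact_mod_cast hI.deg v hvW
    have hmuv : mu G v = ((N G v).card : ℤ) - 2 := rfl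
    have hcard : (N G v).card = 3 := by
      have : ((N G v).card : ℤ) = 3 := by
        have h0 : (0:ℤ) ≤ (S.card : ℤ) := by positivity
        omega
      exact_mod_cast this
    have hScard : S.card ≤ 1 := by
      have h1 : ((N G v).card : ℤ) = 3 := by exact_mod_cast hcard
      have : (S.card : ℤ) ≤ 1 := by omega
      exact_mod_cast this
    obtain ⟨w0, hw0, hw1⟩ : ∃ w0, G.Adj v w0 ∧ ∀ w, G.Adj v w → w ≠ w0 → ∀ y, ¬ Good G W H v w y := by
      by_cases hex : ∃ w y, G.Adj v w ∧ Good G W H v w y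
      · obtain ⟨w0, y0, h1, h2⟩ := hex
        refine ⟨w0, h1, fun w hw hne y hy => hne ?_⟩
        have h3 : y = y0 := card_le_one.1 hScard y ((hS y).2 ⟨w, hw, hy⟩) y0 ((hS y0).2 ⟨w0, h1, h2⟩)
        subst h3
        exact hG.q v w y w0 hw hy.2.1 h1 h2.2.1 (Ne.symm hy.2.2.1)
      · have hne : (N G v).Nonempty := by
          rw [← card_pos, hcard]
          norm_num
        obtain ⟨w0, hw0⟩ := hne
        rw [mem_N] at hw0
        refine ⟨w0, hw0, fun w hw _ y hy => hex ⟨w, y, hw, hy⟩⟩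
    have hw0N : w0 ∈ N G v := mem_N.2 hw0
    have hc2 : ((N G v).erase w0).card = 2 := by
      rw [card_erase_of_mem hw0N, hcard]
    obtain ⟨a, b, hab, he⟩ := card_eq_two.1 hc2
    have ha : a ∈ (N G v).erase w0 := by
      rw [he]
      exact mem_insert_self a _
    have hb : b ∈ (N G v).erase w0 := by
      rw [he]
      exact mem_insert_of_mem (mem_singleton_self b)
    rw [mem_erase, mem_N] at ha hb
    refine ⟨a, b, w0, hab, ha.1, hb.1, ?_, hw1 a ha.2 ha.1, hw1 b hb.2 hb.1, ?_⟩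
    · rw [← insert_erase hw0N, he]
      ext x
      simp only [mem_insert, mem_singleton]
      tauto
    · intro y y' hy hy'
      exact card_le_one.1 hScard y ((hS y).2 ⟨w0, hw0, hy⟩) y' ((hS y').2 ⟨w0, hw0, hy'⟩)

end Pool.Agent.L0h57.MN
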